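import Pool.Agent.Helper67.XiFinal

/-!
The exact set in Q2.  There is a threshold `Rs`, `0.256205 < Rs < 0.256206`, such that for every
`R > 0` the truncated cosine transform `H_R` of the Riemann Xi kernel has a non-real zero if and
only if `R > Rs`.  The threshold is the least `R` in `[0.19, 0.2585]` for which `H_R` is nonnegative
on `[23.725, 29.725]`, and `H_{Rs}` has a real zero `c` in `(24.85, 28.6)` at which its derivative
vanishes too.
-/

open Set
open Pool.Agent.Helper67.Xi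

namespace Pool.Agent.Results.MP_65850b_an.ExactSet

/-- Main result. -/
theorem result :
    ∃ Rs c : ℝ, 0.256205 < Rs ∧ Rs < 0.256206 ∧
      (∀ R : ℝ, 0 < R → ((∃ z : ℂ, H R z = 0 ∧ z.im ≠ 0) ↔ Rs < R)) ∧
      24.85 < c ∧ c < 28.6 ∧ H Rs (c : ℂ) = 0 ∧ deriv (H Rs) (c : ℂ) = 0 ∧
      (∀ R ∈ Icc (0.19 : ℝ) 0.2585,
        ((∀ x ∈ Icc (23.725 : ℝ) 29.725, 0 ≤ (H R (x : ℂ)).re) ↔ Rs ≤ R)) :=
  exact_set

end Pool.Agent.Results.MP_65850b_an.ExactSet
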