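import Pool.Agent.Helper67.XiD

/-!
Zeros of the truncated cosine transform `H_R` of the Riemann Xi kernel: for all large `R` there is
a zero near `4πi e^{4R}`.  This answers Q1 in the negative.
-/

open Pool.Agent.Helper67.Xi

namespace Pool.Agent.Results.MP_65850b_an.LargeImaginaryZeros

/-- Main result. -/
theorem result :
    (∀ R₀ : ℝ, 0 < R₀ → ∃ R : ℝ, R₀ ≤ R ∧ ∃ z : ℂ, H R z = 0 ∧ 1 ≤ |z.im|) ∧
    (∀ ε : ℝ, 0 < ε → ∃ R₁ : ℝ, 0 < R₁ ∧ ∀ R : ℝ, R₁ ≤ R → ∃ z : ℂ, H R z = 0 ∧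
      ‖z - ((4 * Real.pi * Real.exp (4 * R) : ℝ) : ℂ) * Complex.I‖ <
        ε * Real.exp (4 * R)) := by
  have hC : ∀ ε : ℝ, 0 < ε → ∃ R₁ : ℝ, 0 < R₁ ∧ ∀ R : ℝ, R₁ ≤ R → ∃ z : ℂ, H R z = 0 ∧
      ‖z - ((4 * Real.pi * Real.exp (4 * R) : ℝ) : ℂ) * Complex.I‖ <
        ε * Real.exp (4 * R) := by
    intro ε hε
    obtain ⟨R₀, hR₀⟩ := zero_near ε hε
    refine ⟨max R₀ 1, lt_of_lt_of_le one_pos (le_max_right _ _), fun R hR => ?_⟩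
    obtain ⟨ζ, h1, h2⟩ := hR₀ R ((le_max_left _ _).trans hR)
    refine ⟨ζ * Complex.I, by rw [H_eq, h1], ?_⟩
    rw [← sub_mul, norm_mul, Complex.norm_I, mul_one]
    exact h2
  refine ⟨?_, hC⟩
  intro R₀ _
  obtain ⟨R₁, h1, h2⟩ := hC Real.pi Real.pi_pos
  refine ⟨max R₀ R₁, le_max_left _ _, ?_⟩
  obtain ⟨z, hz, hz'⟩ := h2 _ (le_max_right R₀ R₁)
  refine ⟨z, hz, ?_⟩
  set R := max R₀ R₁
  have hR : R₁ ≤ R := le_max_right _ _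
  have h3 := Complex.abs_im_le_norm
    (z - ((4 * Real.pi * Real.exp (4 * R) : ℝ) : ℂ) * Complex.I)
  have h4 : ∀ x : ℝ, (z - (x : ℂ) * Complex.I).im = z.im - x := by intro x; simp
  rw [h4] at h3
  have h5 := (abs_le.1 (h3.trans hz'.le)).1
  have h6 : 1 ≤ Real.exp (4 * R) := Real.one_le_exp (by linarith)
  have h7 := Real.pi_gt_three
  have h8 : 1 ≤ z.im := by nlinarith
  exact h8.trans (le_abs_self _)

end Pool.Agent.Results.MP_65850b_an.LargeImaginaryZeros
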